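import Pool.Agent.Helper46.C2.St

/-!
Project C2 (MP_b3ce06_al), module CRT: choice of a parameter by the Chinese remainder theorem.
-/

set_option autoImplicit false

namespace Pool.Agent.Helper89.C2

open Pool.Agent.Helper46.C2

/-- In a field with at least four elements three nonconstant conditions exclude at most three values. -/
theorem field_choice (F : Type) [Field F] [Finite F] (h4 : 4 ≤ Nat.card F) (u v : Fin 3 → F)
    (huv : ∀ i, u i ≠ 0 ∨ v i ≠ 0) : ∃ κ : F, ∀ i, u i * κ + v i ≠ 0 := by
  classical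
  have : Fintype F := Fintype.ofFinite F
  let B : Finset F := Finset.univ.image fun i : Fin 3 => -v i / u i
  have hB : B.card ≤ 3 := by
    refine Finset.card_image_le.trans ?_
    simp
  have h1 : B.card < Fintype.card F := by
    rw [Nat.card_eq_fintype_card] at h4
    omega
  obtain ⟨κ, hκ⟩ : ∃ κ, κ ∉ B := by
    by_contra hc
    push Not at hc
    have h2 : B = Finset.univ := Finset.eq_univ_of_forall hc
    rw [h2, Finset.card_univ] at h1
    exact lt_irrefl _ h1
  refine ⟨κ, fun i hi => ?_⟩
  by_cases h0 : u i = 0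
  · rw [h0, zero_mul, zero_add] at hi
    rcases huv i with h | h
    · exact h h0
    · exact h hi
  · apply hκ
    refine Finset.mem_image.2 ⟨i, Finset.mem_univ _, ?_⟩
    rw [div_eq_iff h0]
    linear_combination -hi

theorem hCRT : StCRT := by
  intro L _ _ hL u v huv
  classical
  let ι := {I : Ideal L // I.IsMaximal}
  have hfin : Finite (Ideal L) := by
    have h1 : Function.Injective fun I : Ideal L => (I : Set L) := fun I J h => SetLike.coe_injective h
    exact Finite.of_injective _ h1
  have hι : Finite ι := Subtype.finite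
  have hco : Pairwise (Function.onFun IsCoprime fun I : ι => I.1) := by
    intro I J hIJ
    have h1 : I.1 ≠ J.1 := fun h => hIJ (Subtype.ext h)
    rw [Function.onFun, Ideal.isCoprime_iff_sup_eq]
    exact I.2.coprime_of_ne J.2 h1
  have hx : ∀ I : ι, ∃ κ : L, ∀ i, u i * κ + v i ∉ I.1 := by
    intro I
    have hmax := I.2
    letI : Field (L ⧸ I.1) := Ideal.Quotient.field I.1
    have hfq : Finite (L ⧸ I.1) := Finite.of_surjective _ Ideal.Quotient.mk_surjective
    obtain ⟨κ, hκ⟩ := field_choice (L ⧸ I.1) (hL I.1 I.2) (fun i => Ideal.Quotient.mk I.1 (u i))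
      (fun i => Ideal.Quotient.mk I.1 (v i)) (fun i => by
        rcases huv I.1 I.2 i with h | h
        · left
          exact fun h0 => h (Ideal.Quotient.eq_zero_iff_mem.1 h0)
        · right
          exact fun h0 => h (Ideal.Quotient.eq_zero_iff_mem.1 h0))
    obtain ⟨κ', rfl⟩ := Ideal.Quotient.mk_surjective κ
    refine ⟨κ', fun i hi => hκ i ?_⟩
    rw [← map_mul, ← map_add]
    exact Ideal.Quotient.eq_zero_iff_mem.2 hi
  choose x hx using hx
  obtain ⟨κ, hκ⟩ := Ideal.exists_forall_sub_mem_ideal hco x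
  refine ⟨κ, fun i => ?_⟩
  by_contra hnu
  obtain ⟨I, hI, hmem⟩ := exists_max_ideal_of_mem_nonunits hnu
  have h1 := hκ ⟨I, hI⟩
  have h2 := hx ⟨I, hI⟩ i
  apply h2
  have h3 : u i * x ⟨I, hI⟩ + v i = (u i * κ + v i) - u i * (κ - x ⟨I, hI⟩) := by ring
  rw [h3]
  exact I.sub_mem hmem (I.mul_mem_left _ h1)

end Pool.Agent.Helper89.C2
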